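import Pool.Agent.helper47.TFQ.Spec

/-!
# Row fq:QG2 (helper45): the absolute value of the Jacobi sums over a finite field
-/

set_option autoImplicit false

namespace Pool.Agent.TFQ

open Polynomial Pool.Agent.GJ Pool.Agent.TK
open Pool.Agent.FJ (VT Om chiO IsFrobO rf rs)
open Pool.Agent.TD (zK)

noncomputable section

/-- A primitive additive character of `F` with values in `Om`. -/
theorem QG2_psi (F : Type) [Field F] [Fintype F] : ∃ ψ : AddChar F Om, ψ.IsPrimitive := by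
  have h0 : ringChar Om = 0 := ringChar.eq_zero
  have hF : ringChar F ≠ 0 := by
    have := CharP.char_is_prime F (ringChar F)
    exact this.ne_zero
  have h : ringChar Om ≠ ringChar F := by rw [h0]; exact hF.symm
  let ψ := AddChar.FiniteField.primitiveChar F Om h
  haveI : NeZero (ψ.n : ℕ) := ⟨ψ.n.pos.ne'⟩
  haveI : FiniteDimensional Om (CyclotomicField ψ.n Om) :=
    IsCyclotomicExtension.finiteDimensional {(ψ.n : ℕ)} Om (CyclotomicField ψ.n Om)
  haveI : Algebra.IsAlgebraic Om (CyclotomicField ψ.n Om) := Algebra.IsAlgebraic.of_finite _ _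
  let φ : CyclotomicField ψ.n Om →+* Om := (IsAlgClosed.lift : CyclotomicField ψ.n Om →ₐ[Om] Om).toRingHom
  exact ⟨(φ : CyclotomicField ψ.n Om →* Om).compAddChar ψ.char,
    ψ.prim.compMulHom_of_isPrimitive φ.injective⟩

theorem QG2 (hQG1 : QG1_stmt) : QG2_stmt := by
  intro F _ _ _ l χ n μ lam r hl hχ hμ hM hlam hr0 hrl
  obtain ⟨ψ, hψ⟩ := QG2_psi F
  have hp0 : (cq F : Om) ≠ 0 := by exact_mod_cast Fintype.card_ne_zero
  have hχl : χ ^ l = 1 := by rw [← hχ]; exact pow_orderOf_eq_one χ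
  have hinv : ∀ a : ℕ, χ ^ ((l - r) * a) = (χ ^ (r * a))⁻¹ := by
    intro a
    rw [eq_inv_iff_mul_eq_one, ← pow_add, ← add_mul, Nat.sub_add_cancel hrl.le, pow_mul, hχl,
      one_pow]
  have hne : ∀ a : ℕ, ¬ l ∣ a → χ ^ (r * a) ≠ 1 := by
    intro a ha h
    have h1 : l ∣ r * a := by rw [← hχ]; exact orderOf_dvd_of_pow_eq_one h
    rcases (Nat.Prime.dvd_mul hl).1 h1 with h2 | h2
    · exact absurd (Nat.le_of_dvd hr0 h2) (not_le.2 hrl)
    · exact ha h2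
  have hne' : ∀ a : ℕ, ¬ l ∣ a → χ ^ ((l - r) * a) ≠ 1 := by
    intro a ha h
    rw [hinv, inv_eq_one] at h
    exact hne a ha h
  have hμd : ∀ j, ¬ l ∣ μ j := fun j h =>
    absurd (Nat.le_of_dvd (hμ j).1 h) (not_le.2 (hμ j).2)
  have h1 := hQG1 F χ ψ n μ lam r hr0 (fun j => (hμ j).1) (hne _ hM) hlam
  have h2 := hQG1 F χ ψ⁻¹ n μ lam (l - r) (Nat.sub_pos_of_lt hrl) (fun j => (hμ j).1)
    (hne' _ hM) hlam
  have hg : ∀ a : ℕ, ¬ l ∣ a →
      gaussSum (χ ^ (r * a)) ψ * gaussSum (χ ^ ((l - r) * a)) ψ⁻¹ = (cq F : Om) := by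
    intro a ha
    rw [hinv, gaussSum_mul_gaussSum_eq_card (hne a ha) hψ]
  have hlam1 : (∏ j, χ (lam j) ^ (r * μ j)) * (∏ j, χ (lam j) ^ ((l - r) * μ j)) = 1 := by
    rw [← Finset.prod_mul_distrib]
    refine Finset.prod_eq_one fun j _ => ?_
    rw [← pow_add, ← add_mul, Nat.add_sub_cancel' hrl.le, pow_mul]
    have h3 : χ (lam j) ^ l = 1 := by
      have h4 : (χ ^ l) (lam j) = 1 := by
        rw [hχl, MulChar.one_apply (Ne.isUnit (hlam j))]
      rw [MulChar.pow_apply' χ hl.ne_zero] at h4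
      exact h4
    rw [h3, one_pow]
  have h3 : cJQ χ μ lam r * cJQ χ μ lam (l - r) * (cq F : Om) = (cq F : Om) ^ (n + 1) := by
    have h4 : (∏ j, gaussSum (χ ^ (r * μ j)) ψ) * (∏ j, gaussSum (χ ^ ((l - r) * μ j)) ψ⁻¹) =
        (cq F : Om) ^ (n + 1) := by
      rw [← Finset.prod_mul_distrib, Finset.prod_congr rfl fun j _ => hg (μ j) (hμd j),
        Finset.prod_const, Finset.card_univ, Fintype.card_fin]
    rw [← h4, ← h1, ← h2, ← hg _ hM]
    calc cJQ χ μ lam r * cJQ χ μ lam (l - r) *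
          (gaussSum (χ ^ (r * ∑ j, μ j)) ψ * gaussSum (χ ^ ((l - r) * ∑ j, μ j)) ψ⁻¹)
        = cJQ χ μ lam r * cJQ χ μ lam (l - r) * 1 *
          (gaussSum (χ ^ (r * ∑ j, μ j)) ψ * gaussSum (χ ^ ((l - r) * ∑ j, μ j)) ψ⁻¹) := by ring
      _ = cJQ χ μ lam r * cJQ χ μ lam (l - r) *
          ((∏ j, χ (lam j) ^ (r * μ j)) * (∏ j, χ (lam j) ^ ((l - r) * μ j))) *
          (gaussSum (χ ^ (r * ∑ j, μ j)) ψ * gaussSum (χ ^ ((l - r) * ∑ j, μ j)) ψ⁻¹) := by
          rw [hlam1]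
      _ = _ := by ring
  rw [pow_succ] at h3
  exact mul_right_cancel₀ hp0 h3

end

end Pool.Agent.TFQ
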